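import Pool.Agent.U236.AE

/-!
# The formula of Q1 for almost all values `F(m)` of a polynomial of any degree and for the integers `D F(m)²` with ALL
squarefree `D ≡ 1 mod 4` up to a bound, with `m` in automatic sets, random with exchangeable blocks of digits, in families of
residues, and in sequences of non-integral order

From Mathlib: deterministic finite automata `DFA` (with finitely many states here); `ZMod.stdAddChar`: the additive
character `j ↦ exp (2 π i j / q)` of the integers modulo `q`; `ZMod.val`: the least residue; `Nat.primeCounting`: `π(x)`;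
`iteratedDeriv m f`: the derivative of order `m`; `⌊y⌋₊`: the integer part of `y`, and `0` for `y < 0`.

Library: the formula for random integers with decaying characteristic functions (`Pool.Agent.R318.PR`), the domination of
the four kinds of families by such random integers (`N794.CG`, `H491R4.AF2`, `N384.MQ`, `N193.PS`).
-/

set_option autoImplicit false

namespace Pool.Agent.Results.MP_991e92_nt.FourKindsOfFamilies

open Finset Filter

/-- the number of primes `p ≤ x` modulo which `n` is a primitive root -/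
noncomputable def P (n : ℤ) (x : ℕ) : ℕ :=
  ((range (x + 1)).filter (fun p : ℕ => p.Prime ∧ orderOf (n : ZMod p) = p - 1)).card

/-- Artin's constant -/
noncomputable def A : ℝ := ∏' p : Nat.Primes, (1 - 1 / (((p : ℕ) : ℝ) * (((p : ℕ) : ℝ) - 1)))

/-- the density of Q1 for integers with squarefree part `D`: it is
`(1 - μ(|D|) ∏_{q ∣ D} 1 / (q² - q - 1)) ∏_p (1 - 1 / (p (p - 1)))` if `D ≡ 1 mod 4`, and Artin's constant otherwise -/
noncomputable def δ (D : ℤ) : ℝ :=
  if D % 4 = 1 then (1 - ((ArithmeticFunction.moebius D.natAbs : ℤ) : ℝ) *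
      ∏ q ∈ D.natAbs.primeFactors, (1 / ((q : ℝ) ^ 2 - (q : ℝ) - 1))) * A
  else A

/-- The formulas at `x` for the bases `a = F(m)` and `a = D F(m) ^ 2`: the number of the primes `p ≤ x` modulo which `a` is a
primitive root is `δ(a') π(x)`, where `a'` is the squarefree part of `a`, up to an error of at most `ε π(x)`; for
`a = D F(m) ^ 2` simultaneously for all squarefree `D ≡ 1 mod 4`, `D ≠ 1`, with `|D| ≤ H`. -/
def Formula (F : Polynomial ℤ) (H : ℕ) (ε : ℝ) (x : ℕ) (m : ℤ) : Prop :=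
  (∀ D t : ℤ, Squarefree D → F.eval m = D * t ^ 2 →
    |(P (F.eval m) x : ℝ) - δ D * (Nat.primeCounting x : ℝ)| ≤ ε * (Nat.primeCounting x : ℝ)) ∧
  ∀ D : ℤ, Squarefree D → D % 4 = 1 → D ≠ 1 → D.natAbs ≤ H →
    |(P (D * (F.eval m) ^ 2) x : ℝ) - δ D * (Nat.primeCounting x : ℝ)| ≤ ε * (Nat.primeCounting x : ℝ)

open Classical in
/-- the integers `0 ≤ v < N` whose digits in base `b` (lowest first; the empty word for `v = 0`) are accepted by the
automaton `M` -/
noncomputable def members (b : ℕ) {σ : Type} (M : DFA ℕ σ) (N : ℕ) : Finset ℕ :=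
  (range N).filter (fun v => Nat.digits b v ∈ M.accepts)

/-- The probability, for the distribution `μ` on the words of `k` digits (the integers `v < b ^ k`), that the word begins with
the `i` digits of `u < b ^ i`. -/
noncomputable def begins (b k : ℕ) (μ : ℕ → ℝ) (i u : ℕ) : ℝ := ∑ w ∈ range (b ^ (k - i)), μ (u * b ^ (k - i) + w)

/-- `p` is a probability on the words of `k` digits in base `b`, read as integers `v < b ^ k`. There is another probability
`μ` with `p ≤ k ^ T μ` such that after every beginning `u` two different blocks `a`, `a'` of `L` digits can be exchanged: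
`p (u a w) = r p (u a' w)` for all endings `w`, with a factor `r` between `η` and `1 / η` which does not depend on `w`; and
given the beginning `u`, each of the two blocks comes next with a probability of at least `η` in the distribution `μ`.
(For `T = 0` one has `μ = p`. For the uniform distribution on a set of words `r` is `1`.) -/
structure Exchangeable (b L : ℕ) (η : ℝ) (T k : ℕ) (p : ℕ → ℝ) : Prop where
  nonneg : ∀ v, 0 ≤ p v
  sum : ∑ v ∈ range (b ^ k), p v = 1
  dominated : ∃ μ : ℕ → ℝ, (∀ v, 0 ≤ μ v) ∧ ∑ v ∈ range (b ^ k), μ v = 1 ∧ (∀ v < b ^ k, p v ≤ (k : ℝ) ^ T * μ v) ∧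
    ∀ i u : ℕ, i + L ≤ k → u < b ^ i → ∃ (a a' : ℕ) (r : ℝ), a < a' ∧ a' < b ^ L ∧ η ≤ r ∧ η * r ≤ 1 ∧
      (∀ w < b ^ (k - (i + L)), p ((b ^ L * u + a) * b ^ (k - (i + L)) + w) = r * p ((b ^ L * u + a') * b ^ (k - (i + L)) + w)) ∧
      η * begins b k μ i u ≤ begins b k μ (i + L) (b ^ L * u + a) ∧
      η * begins b k μ i u ≤ begins b k μ (i + L) (b ^ L * u + a')

/-- The Fourier coefficients of the residues `y i`, `i ∈ s`, modulo `q` at the nonzero frequencies are at most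
`η` times the number of the residues: `|∑ i ∈ s, e(h y_i / q)| ≤ η |s|` for all `h ≠ 0` modulo `q`. -/
def Flat {ι : Type} (q : ℕ) [NeZero q] (η : ℝ) (s : Finset ι) (y : ι → ZMod q) : Prop :=
  ∀ h : ZMod q, h ≠ 0 → ‖∑ i ∈ s, (ZMod.stdAddChar (h * y i) : ℂ)‖ ≤ η * s.card

/-- `f` is smoothly varying of index `c`: it is infinitely differentiable and positive for large arguments, and
`t ^ m f⁽ᵐ⁾(t) / f(t) → c (c - 1) ... (c - m + 1)` for every `m`. -/
def SmoothlyVarying (c : ℝ) (f : ℝ → ℝ) : Prop :=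
  (∃ t₀ : ℝ, ∀ t > t₀, ContDiffAt ℝ ((⊤ : ℕ∞) : WithTop ℕ∞) f t ∧ 0 < f t) ∧
  ∀ m : ℕ, Tendsto (fun t => t ^ m * iteratedDeriv m f t / f t) atTop (nhds (∏ i ∈ range m, (c - i)))

lemma P_eq (n : ℤ) (x : ℕ) : P n x = Pool.Agent.H730R2.AA.cnt n x := by
  classical
  unfold P Pool.Agent.H730R2.AA.cnt
  congr!

lemma begins_sum (b k : ℕ) (μ : ℕ → ℝ) (i u : ℕ) (hi : i < k) :
    ∑ a ∈ range b, begins b k μ (i + 1) (b * u + a) = begins b k μ i u := by
  unfold begins
  obtain ⟨n, hn⟩ : ∃ n, k - i = n + 1 := ⟨k - i - 1, by omega⟩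
  have h1 : k - (i + 1) = n := by omega
  rw [h1, hn, pow_succ, mul_comm (b ^ n) b, Pool.Agent.N625.PT.sum_blocks b (b ^ n)]
  apply sum_congr rfl
  intro a _
  apply sum_congr rfl
  intro w _
  congr 1
  ring

lemma flex_of {b L T k : ℕ} {η : ℝ} {p : ℕ → ℝ} (hp : Exchangeable b L η T k p) : Pool.Agent.N625.PT.Flex b L η T k p := by
  obtain ⟨h0, h1, μ, m0, m1, m2, m3⟩ := hp
  have hT : (0 : ℝ) ≤ (k : ℝ) ^ T := by positivity
  have hb0 : ∀ i u, 0 ≤ begins b k μ i u := fun i u => sum_nonneg fun w _ => m0 _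
  refine ⟨h0, h1, fun i u => (k : ℝ) ^ T * begins b k μ i u, fun i u => mul_nonneg hT (hb0 i u), ?_, ?_, ?_, ?_⟩
  · intro v hv
    refine (m2 v hv).trans (le_of_eq ?_)
    unfold begins
    simp
  · intro i hi u _
    simp only
    rw [← mul_sum, begins_sum b k μ i u hi]
  · simp only
    have : begins b k μ 0 0 = 1 := by
      unfold begins
      simpa using m1
    rw [this, mul_one]
  · intro i u hi hu
    obtain ⟨a, a', r, q1, q2, q3, q4, q5, q6, q7⟩ := m3 i u hi hu
    refine ⟨a, a', r, q1, q2, q3, q4, q5, ?_, ?_⟩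
    · simp only
      calc η * ((k : ℝ) ^ T * begins b k μ i u) = (k : ℝ) ^ T * (η * begins b k μ i u) := by ring
        _ ≤ _ := mul_le_mul_of_nonneg_left q6 hT
    · simp only
      calc η * ((k : ℝ) ^ T * begins b k μ i u) = (k : ℝ) ^ T * (η * begins b k μ i u) := by ring
        _ ≤ _ := mul_le_mul_of_nonneg_left q7 hT

lemma formula_of (s : Pool.Agent.U236.AE.Par) (x : ℕ) (n : ℤ) (h : Pool.Agent.U236.AE.QP s x n) :
    Formula s.F s.H s.ε x n := by
  obtain ⟨h1, h2⟩ := h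
  refine ⟨fun D t hD ht => ?_, fun D hD h3 h4 h5 => ?_⟩
  · rw [P_eq]
    exact h1 D t hD ht
  · rw [P_eq]
    have : δ D = Pool.Agent.H730R2.AA.dens D := by
      unfold δ
      rw [if_pos h3]
      rfl
    rw [this]
    exact h2 D hD h3 h4 h5

open Classical in
/-- **Theorem.** Let `F` be a polynomial with integer coefficients that has a simple complex zero. Let `H ≥ 0`, `ε > 0`. In
four kinds of families of integers `m`, with few exceptions `m`, the following holds: for EVERY `x ≥ X` in the range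
stated below, the number of the primes `p ≤ x` modulo which the base `a` is a primitive root is
`δ(a') π(x)` up to an error of at most `ε π(x)`, `a'` the squarefree part of `a`, for the base `a = F(m)` and
simultaneously for all the bases `a = D F(m) ^ 2` with squarefree `D ≡ 1 mod 4`, `D ≠ 1`, `|D| ≤ H`.

(1) Automatic sets: `S` is the set of the integers whose digits in base `b` are accepted by a finite automaton, and the
number of its elements below `N` is not bounded by a power of `log N`; `m = c + κ v` with `v ∈ S`, `v < N`. The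
proportion of the exceptions is at most `C (log N) ^ e (log X) / X`; `x ^ W ≤ N`.

(2) Exchangeable digits: `m = c + κ v` where `v` is random with a distribution `p` for which blocks of `L` digits can be
exchanged (`Exchangeable b L η T k p`). The probability of the exceptions is at most `C k ^ T (log X) / X`;
`x ^ W ≤ b ^ k`.

(3) Families of residues: `m = c + κ v`, where `v` is the least residue of `y_i` modulo `q`, and the Fourier coefficients
of the family are at most `1 / (Z (42 + 3 log q))` times the number of the residues, `Z ≤ q`. The proportion of the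
exceptions is at most `C (log X) / X`; `x ^ W ≤ Z`.

(4) Sequences of non-integral order: `m = c + κ ⌊f(n)⌋`, `1 ≤ n ≤ M`, where `f` is smoothly varying of a positive index that
is not an integer. The proportion of the exceptions is at most `C (log X) / X`; `x ^ W ≤ f(M)`.

The exponents `W`, `e` do not depend on `F`, `H`, `ε` and `κ`, and `C`, `X₀` do not depend on `N`, `k`, `q`, `M` and `c`. -/
theorem result :
    (∀ (b : ℕ), 2 ≤ b → ∀ (σ : Type) [Fintype σ] (M : DFA ℕ σ),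
      (∀ k : ℕ, ∃ᶠ N : ℕ in atTop, Real.log N ^ k < ((members b M N).card : ℝ)) →
      ∃ W e : ℕ, 1 ≤ W ∧ ∀ κ : ℤ, κ ≠ 0 → ∀ F : Polynomial ℤ,
      (∃ z : ℂ, Polynomial.aeval z F = 0 ∧ Polynomial.aeval z (Polynomial.derivative F) ≠ 0) →
      ∀ (H : ℕ) (ε : ℝ), 0 < ε → ∃ (C : ℝ) (X₀ : ℕ), ∀ X : ℕ, X₀ ≤ X → ∀ (N : ℕ) (c : ℤ),
        (((members b M N).filter
          (fun v => ¬ ∀ x : ℕ, X ≤ x → x ^ W ≤ N → Formula F H ε x (c + κ * (v : ℕ)))).card : ℝ) ≤
          C * Real.log N ^ e * (Real.log X / X) * ((members b M N).card : ℝ)) ∧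
    (∀ (b L : ℕ), 2 ≤ b → 1 ≤ L → ∀ η : ℝ, 0 < η → η ≤ 1 → ∀ T : ℕ,
      ∃ W : ℕ, 1 ≤ W ∧ ∀ κ : ℤ, κ ≠ 0 → ∀ F : Polynomial ℤ,
      (∃ z : ℂ, Polynomial.aeval z F = 0 ∧ Polynomial.aeval z (Polynomial.derivative F) ≠ 0) →
      ∀ (H : ℕ) (ε : ℝ), 0 < ε → ∃ (C : ℝ) (X₀ : ℕ), ∀ X : ℕ, X₀ ≤ X → ∀ (k : ℕ) (p : ℕ → ℝ),
        Exchangeable b L η T k p → ∀ c : ℤ,
        ∑ v ∈ (range (b ^ k)).filter
          (fun v => ¬ ∀ x : ℕ, X ≤ x → x ^ W ≤ b ^ k → Formula F H ε x (c + κ * (v : ℕ))), p v ≤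
          C * (k : ℝ) ^ T * (Real.log X / X)) ∧
    (∃ W : ℕ, 1 ≤ W ∧ ∀ κ : ℤ, κ ≠ 0 → ∀ F : Polynomial ℤ,
      (∃ z : ℂ, Polynomial.aeval z F = 0 ∧ Polynomial.aeval z (Polynomial.derivative F) ≠ 0) →
      ∀ (H : ℕ) (ε : ℝ), 0 < ε → ∃ (C : ℝ) (X₀ : ℕ), ∀ X : ℕ, X₀ ≤ X →
      ∀ (ι : Type) (q : ℕ) [NeZero q] (s : Finset ι) (y : ι → ZMod q) (Z : ℝ), 0 < Z → Z ≤ q →
        Flat q (1 / (Z * (42 + 3 * Real.log q))) s y → ∀ c : ℤ,
        ((s.filter (fun i => ¬ ∀ x : ℕ, X ≤ x → (x : ℝ) ^ W ≤ Z →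
          Formula F H ε x (c + κ * ((y i).val : ℕ)))).card : ℝ) ≤ C * (Real.log X / X) * s.card) ∧
    (∀ (a : ℝ) (f : ℝ → ℝ), 0 < a → (∀ m : ℕ, a ≠ m) → SmoothlyVarying a f →
      ∃ W : ℕ, 1 ≤ W ∧ ∀ κ : ℤ, κ ≠ 0 → ∀ F : Polynomial ℤ,
      (∃ z : ℂ, Polynomial.aeval z F = 0 ∧ Polynomial.aeval z (Polynomial.derivative F) ≠ 0) →
      ∀ (H : ℕ) (ε : ℝ), 0 < ε → ∃ (C : ℝ) (X₀ : ℕ), ∀ X : ℕ, X₀ ≤ X → ∀ (M : ℕ) (c : ℤ),
        (((Icc 1 M).filter (fun n : ℕ => ¬ ∀ x : ℕ, X ≤ x → (x : ℝ) ^ W ≤ f M →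
          Formula F H ε x (c + κ * (⌊f n⌋₊ : ℕ)))).card : ℝ) ≤ C * (Real.log X / X) * M) := by
  have hE := Pool.Agent.U236.AE.engP
  refine ⟨?_, ?_, ?_, ?_⟩
  · intro b hb σ _ M hS
    obtain ⟨W, e, hW, J⟩ := Pool.Agent.U236.AE.p_aut hE b hb M hS
    refine ⟨W, e, hW, fun κ hκ F hF H ε hε => ?_⟩
    obtain ⟨z, hz, hz'⟩ := hF
    obtain ⟨C, X₀, K⟩ := J κ hκ ⟨F, z, hz, hz', H, ε, hε⟩
    refine ⟨C, X₀, fun X hX N c => ?_⟩
    have h1 := K X hX N c _ (filter_subset (fun v => ¬ ∀ x : ℕ, X ≤ x → x ^ W ≤ N →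
      Formula F H ε x (c + κ * (v : ℕ))) (members b M N)) (fun v hv hQ => (mem_filter.1 hv).2
        fun x h1 h2 => formula_of _ x _ (hQ x h1 h2))
    rw [sum_const, nsmul_eq_mul] at h1
    rcases Nat.eq_zero_or_pos (members b M N).card with h0 | h0
    · rw [card_eq_zero] at h0
      rw [h0]
      simp
    · have h3 : (0 : ℝ) < ((members b M N).card : ℝ) := by exact_mod_cast h0
      have h4 : (Pool.Agent.N794.CG.mem b M N) = members b M N := rfl
      rw [h4, mul_one_div, div_le_iff₀ h3] at h1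
      refine h1.trans (le_of_eq ?_)
      ring
  · intro b L hb hL η hη0 hη1 T
    obtain ⟨W, hW, J⟩ := Pool.Agent.U236.AE.p_flex hE b L hb hL η hη0 hη1 T
    refine ⟨W, hW, fun κ hκ F hF H ε hε => ?_⟩
    obtain ⟨z, hz, hz'⟩ := hF
    obtain ⟨C, X₀, K⟩ := J κ hκ ⟨F, z, hz, hz', H, ε, hε⟩
    refine ⟨C, X₀, fun X hX k p hp c => ?_⟩
    have h1 := K X hX k p (flex_of hp) c _ (filter_subset (fun v => ¬ ∀ x : ℕ, X ≤ x → x ^ W ≤ b ^ k →
      Formula F H ε x (c + κ * (v : ℕ))) (range (b ^ k))) (fun v hv hQ => (mem_filter.1 hv).2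
        fun x h1 h2 => formula_of _ x _ (hQ x h1 h2))
    refine h1.trans (le_of_eq ?_)
    ring
  · obtain ⟨W, hW, J⟩ := Pool.Agent.U236.AE.p_res hE
    refine ⟨W, hW, fun κ hκ F hF H ε hε => ?_⟩
    obtain ⟨z, hz, hz'⟩ := hF
    obtain ⟨C, X₀, K⟩ := J κ hκ ⟨F, z, hz, hz', H, ε, hε⟩
    refine ⟨C, X₀, fun X hX ι q _ s y Z hZ hZq hfl c => ?_⟩
    have h1 := K X hX ι q s y Z hZ hZq hfl c _ (filter_subset (fun i => ¬ ∀ x : ℕ, X ≤ x → (x : ℝ) ^ W ≤ Z →
      Formula F H ε x (c + κ * ((y i).val : ℕ))) s) (fun v hv hQ => (mem_filter.1 hv).2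
        fun x h1 h2 => formula_of _ x _ (hQ x h1 h2))
    rw [sum_const, nsmul_eq_mul] at h1
    rcases Nat.eq_zero_or_pos s.card with h0 | h0
    · rw [card_eq_zero] at h0
      rw [h0]
      simp
    · have h3 : (0 : ℝ) < (s.card : ℝ) := by exact_mod_cast h0
      rw [mul_one_div, div_le_iff₀ h3] at h1
      exact h1
  · intro a f ha hn hf
    obtain ⟨W, hW, J⟩ := Pool.Agent.U236.AE.p_sv hE a f ha hn hf
    refine ⟨W, hW, fun κ hκ F hF H ε hε => ?_⟩
    obtain ⟨z, hz, hz'⟩ := hF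
    obtain ⟨C, X₀, K⟩ := J κ hκ ⟨F, z, hz, hz', H, ε, hε⟩
    refine ⟨C, X₀, fun X hX M c => ?_⟩
    have h1 := K X hX M c _ (filter_subset (fun n : ℕ => ¬ ∀ x : ℕ, X ≤ x → (x : ℝ) ^ W ≤ f M →
      Formula F H ε x (c + κ * (⌊f n⌋₊ : ℕ))) (Icc 1 M)) (fun v hv hQ => (mem_filter.1 hv).2
        fun x h1 h2 => formula_of _ x _ (hQ x h1 h2))
    rw [sum_const, nsmul_eq_mul] at h1
    rcases Nat.eq_zero_or_pos M with h0 | h0
    · rw [h0]
      simp
    · have h3 : (0 : ℝ) < (M : ℝ) := by exact_mod_cast h0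
      rw [mul_one_div, div_le_iff₀ h3] at h1
      exact h1

end Pool.Agent.Results.MP_991e92_nt.FourKindsOfFamilies
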