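import Pool.Agent.U255.CC.Sys

set_option autoImplicit false

/-!
# Chains of the second kind with a prime first term and almost prime further terms: number and Poisson law

Let `T(m) = a m + b` be a linear map with integer coefficients; `a = 2`, `b = -1` for the chains of the second kind. Call
`n` rough at the level `z` if none of the `k` numbers `n, T(n), ..., T^(k-1)(n)` has a prime factor `q ≤ z`. For all `k`,
`A`, `δ`, `x₀` and `ε` and all large `r` the following holds for all large `x`, UNIFORMLY in all maps `T` without a local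
obstruction, with `|a|, |b| ≤ x ^ A`. Put `z = x ^ (1 / r)` (integer part), and let `P` be the set of the PRIMES `p` in
an interval `(u, u + L] ⊆ [1, x]`, `L ≥ δ x`, which are rough at the level `z`.

* The number of the elements of `P` is `(1 + O(ε)) L / log x · W`, where `W` is the product of the factors
  `(1 - min(k, period(q)) / q) / (1 - 1 / q)` over the primes `q ≤ z`; `period(q)` is the period of `0` modulo `q` under
  `T` (for the chains of the second kind and `q > 2` it is the order of `2` modulo `q`). So `P` is not empty. For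
  `p ∈ P` the first term `p` of the chain is prime, and each of the other `k - 1` terms has at most `r (A (k + 1) + 3)`
  prime factors.
* After a random element `p` of `P` the number of the rough integers in `(p, p + t]` follows the Poisson law with the
  parameter `t V`, where `V` is the density of the rough integers, uniformly in `t ≤ x₀ / V`.
-/

namespace Pool.Agent.Results.MP_9f2731_nt.PrimeStarts

open Finset Filter

/-- `T^i(n)`, where `T(m) = a m + b` -/
def term (a b : ℤ) (i : ℕ) (n : ℤ) : ℤ := (fun m : ℤ => a * m + b)^[i] n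

/-- none of the `k` numbers `n, T(n), ..., T^(k-1)(n)` has a prime factor `q ≤ z` -/
def Rough (a b : ℤ) (k z n : ℕ) : Prop :=
  ∀ i < k, ∀ q : ℕ, q.Prime → q ≤ z → ¬ (q : ℤ) ∣ term a b i n

open Classical in
/-- the period of the residue `0` modulo the prime number `q` under `T`, if `q` does not divide `a`, and `1` if `q`
divides `a` -/
noncomputable def period (a b : ℤ) (q : ℕ) : ℕ :=
  if (q : ℤ) ∣ a * b then 1 else if (q : ℤ) ∣ a - 1 then q else orderOf (a : ZMod q)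

/-- the density of the rough integers -/
noncomputable def V (a b : ℤ) (k z : ℕ) : ℝ :=
  ∏ q ∈ (Icc 1 z).filter Nat.Prime, (1 - (min k (period a b q) : ℕ) / (q : ℝ))

/-- the density of the rough primes among the primes -/
noncomputable def W (a b : ℤ) (k z : ℕ) : ℝ :=
  ∏ q ∈ (Icc 1 z).filter Nat.Prime, (1 - (min k (period a b q) : ℕ) / (q : ℝ)) / (1 - 1 / (q : ℝ))

open Classical in
/-- the rough primes in `(u, u + L]` -/
noncomputable def P (a b : ℤ) (k z u L : ℕ) : Finset ℕ :=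
  (Ioc u (u + L)).filter (fun p => p.Prime ∧ Rough a b k z p)

open Classical in
/-- the number of the rough integers in `(n, n + t]` -/
noncomputable def next (a b : ℤ) (k z t n : ℕ) : ℕ :=
  ((Ioc n (n + t)).filter (fun m => Rough a b k z m)).card

/-- There is no local obstruction for the chains of length `k` of the map `T`: `|a| ≥ 2`, `a` and `b` are coprime, and
every prime `p ≤ k` which divides `a - 1` divides `b`. -/
def Admissible (k : ℕ) (a b : ℤ) : Prop :=
  2 ≤ |a| ∧ IsCoprime a b ∧ ∀ p : ℕ, p.Prime → p ≤ k → (p : ℤ) ∣ a - 1 → (p : ℤ) ∣ b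

open Pool.Agent.W123.RP Pool.Agent.H373R2.T7 Pool.Agent.W123.RU Pool.Agent.W123.RU.Poly
  Pool.Agent.TH464.PO Pool.Agent.TH464.PW Pool.Agent.Y879.GL Pool.Agent.U255.CC

lemma sifted_iff (a b : ℤ) (k x r n : ℕ) :
    Pool.Agent.R463.PS.Sifted (sys a b k) x r n ↔ Rough a b k ⌊(x : ℝ) ^ (1 / (r : ℝ))⌋₊ n := by
  unfold Pool.Agent.R463.PS.Sifted Rough
  constructor
  · intro h i hi q hq hqz
    have h1 := h q hq ((Nat.le_floor_iff (by positivity)).1 hqz) ⟨i, hi⟩
    rwa [sys_eval] at h1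
  · intro h q hq hqz i
    rw [sys_eval]
    exact h i i.2 q hq (Nat.le_floor hqz)

lemma om_eq (a b : ℤ) (k q : ℕ) (hq : q.Prime) (hk : 1 ≤ k) (hab : IsCoprime a b) :
    Pool.Agent.R463.PS.om (sys a b k) q = min k (period a b q) := by
  classical
  have h1 := roots_eq a b k q hq hk hab
  have h2 : period a b q = Pool.Agent.U255.CC.period a b q := rfl
  rw [h2, ← h1, ← nuB_sys]
  unfold Pool.Agent.R463.PS.om nuB Q
  congr

lemma W_eq (a b : ℤ) (k x r : ℕ) (hk : 1 ≤ k) (hab : IsCoprime a b) :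
    Pool.Agent.R463.PS.W (sys a b k) x r = W a b k ⌊(x : ℝ) ^ (1 / (r : ℝ))⌋₊ := by
  unfold Pool.Agent.R463.PS.W W
  apply prod_congr rfl
  intro q hq
  rw [om_eq a b k q (mem_filter.1 hq).2 hk hab]

lemma V_eq (a b : ℤ) (k x r : ℕ) (hk : 1 ≤ k) (hab : IsCoprime a b) :
    Pool.Agent.R463.PS.V (sys a b k) x r = V a b k ⌊(x : ℝ) ^ (1 / (r : ℝ))⌋₊ := by
  unfold Pool.Agent.R463.PS.V V
  apply prod_congr rfl
  intro q hq
  rw [om_eq a b k q (mem_filter.1 hq).2 hk hab]

lemma P_eq (a b : ℤ) (k x r u L : ℕ) :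
    Pool.Agent.R463.PS.Pr 1 0 (sys a b k) x r u L = P a b k ⌊(x : ℝ) ^ (1 / (r : ℝ))⌋₊ u L := by
  classical
  unfold Pool.Agent.R463.PS.Pr P
  apply filter_congr
  intro n _
  rw [sifted_iff, one_mul, add_zero]

lemma next_eq (a b : ℤ) (k x r t n : ℕ) :
    Pool.Agent.R463.PS.Next (sys a b k) x r t n = next a b k ⌊(x : ℝ) ^ (1 / (r : ℝ))⌋₊ t n := by
  classical
  unfold Pool.Agent.R463.PS.Next next
  congr 1
  apply filter_congr
  intro m _
  exact sifted_iff a b k x r m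

lemma sys_ok (a b : ℤ) (k : ℕ) (hk : 1 ≤ k) (h : Adm k a b) (M H U : ℝ) (hM : 1 ≤ M) (ha : |(a : ℝ)| ≤ M)
    (hb : |(b : ℝ)| ≤ M) (hH : k * M ^ (k + 1) ≤ H) : Pool.Agent.R463.PS.System 1 H U (sys a b k) := by
  have hus := sys_us a b k hk h M U hM ha hb
  refine ⟨hus.irr, fun i => ⟨Nat.one_le_iff_ne_zero.2 (hus.deg i), hus.degD i⟩,
    fun i n => (hus.hgt i n).trans hH, hus.adm, ?_⟩
  intro i j t ht htU
  have h1 := hus.tr i j t ht htU
  refine ⟨fun heq => h1 ?_, fun heq => h1 ?_⟩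
  · rw [heq]
  · rw [heq]
    exact (Associated.refl _).neg_left

/-- few prime factors -/
lemma few (x r s N : ℕ) (hx : 2 ≤ x) (hr : 1 ≤ r) (hN : 0 < N) (hNx : N < x ^ s)
    (h : ∀ p : ℕ, p.Prime → p ≤ ⌊(x : ℝ) ^ (1 / (r : ℝ))⌋₊ → ¬ p ∣ N) :
    N.primeFactorsList.length ≤ r * s := by
  obtain ⟨z, hz⟩ : ∃ z, z = ⌊(x : ℝ) ^ (1 / (r : ℝ))⌋₊ := ⟨_, rfl⟩
  rw [← hz] at h
  have hx1 : (1 : ℝ) < x := by exact_mod_cast (by omega : 1 < x)
  have hr0 : (0 : ℝ) < r := by exact_mod_cast hr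
  have h1 : ∀ q ∈ N.primeFactorsList, z + 1 ≤ q := by
    intro q hq
    by_contra h2
    exact h q (Nat.prime_of_mem_primeFactorsList hq) (by omega) (Nat.dvd_of_mem_primeFactorsList hq)
  have h2 : (z + 1) ^ N.primeFactorsList.length ≤ N.primeFactorsList.prod := List.pow_card_le_prod _ _ h1
  rw [Nat.prod_primeFactorsList hN.ne'] at h2
  have h3 : (x : ℝ) ^ (1 / (r : ℝ)) < ((z + 1 : ℕ) : ℝ) := by
    rw [hz]
    push_cast
    exact Nat.lt_floor_add_one _
  have h4 : ((x : ℝ) ^ (1 / (r : ℝ))) ^ N.primeFactorsList.length < (x : ℝ) ^ s := by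
    calc ((x : ℝ) ^ (1 / (r : ℝ))) ^ N.primeFactorsList.length ≤
          ((z + 1 : ℕ) : ℝ) ^ N.primeFactorsList.length := pow_le_pow_left₀ (by positivity) h3.le _
      _ ≤ N := by exact_mod_cast h2
      _ < (x : ℝ) ^ s := by exact_mod_cast hNx
  rw [← Real.rpow_natCast, ← Real.rpow_natCast, ← Real.rpow_mul (by linarith),
    Real.rpow_lt_rpow_left_iff hx1, one_div, inv_mul_eq_div, div_lt_iff₀ hr0] at h4
  have h5 : N.primeFactorsList.length < s * r := by exact_mod_cast h4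
  rw [mul_comm]
  exact h5.le

/-- the size of the terms -/
lemma term_size (a b : ℤ) (k A x p i : ℕ) (hx : 4 * k + 4 ≤ x) (ha : |a| ≤ (x : ℤ) ^ A)
    (hb : |b| ≤ (x : ℤ) ^ A) (hp : p ≤ x) (hi : i < k) :
    (term a b i p).natAbs < x ^ (A * (k + 1) + 3) := by
  have hxR : (4 * (k : ℝ) + 4) ≤ x := by exact_mod_cast hx
  have hk0 : (0 : ℝ) ≤ k := Nat.cast_nonneg k
  have hx1 : (1 : ℝ) ≤ x := by linarith
  have hM : (1 : ℝ) ≤ (x : ℝ) ^ A := one_le_pow₀ hx1
  have ha' : |(a : ℝ)| ≤ (x : ℝ) ^ A := by exact_mod_cast ha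
  have hb' : |(b : ℝ)| ≤ (x : ℝ) ^ A := by exact_mod_cast hb
  have hp' : (p : ℝ) ≤ x := by exact_mod_cast hp
  have hg := g_bound a ((x : ℝ) ^ A) hM ha' i k hi.le
  have h1 : term a b i p = a ^ i * (p : ℤ) + b * g a i := term_eq a b i p
  have h2 : |((term a b i p : ℤ) : ℝ)| ≤ (x : ℝ) ^ (A * k) * x + (x : ℝ) ^ A * (k * ((x : ℝ) ^ A) ^ k) := by
    rw [h1]
    push_cast
    refine (abs_add_le _ _).trans (add_le_add ?_ ?_)
    · rw [abs_mul, abs_pow, Nat.abs_cast]
      apply mul_le_mul _ hp' (Nat.cast_nonneg _) (by positivity)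
      calc |(a : ℝ)| ^ i ≤ ((x : ℝ) ^ A) ^ i := pow_le_pow_left₀ (abs_nonneg _) ha' _
        _ ≤ ((x : ℝ) ^ A) ^ k := pow_le_pow_right₀ hM hi.le
        _ = (x : ℝ) ^ (A * k) := by rw [pow_mul]
    · rw [abs_mul]
      exact mul_le_mul hb' hg (abs_nonneg _) (by positivity)
  have h3 : (x : ℝ) ^ (A * k) * x + (x : ℝ) ^ A * (k * ((x : ℝ) ^ A) ^ k) ≤ (1 + k) * x * (x : ℝ) ^ (A * (k + 1)) := by
    have e1 : (x : ℝ) ^ (A * k) ≤ (x : ℝ) ^ (A * (k + 1)) := pow_le_pow_right₀ hx1 (by rw [mul_add]; omega)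
    have e2 : (x : ℝ) ^ A * (k * ((x : ℝ) ^ A) ^ k) = k * (x : ℝ) ^ (A * (k + 1)) := by
      rw [← pow_mul, mul_add, pow_add, mul_one]
      ring
    have e3 : (k : ℝ) * (x : ℝ) ^ (A * (k + 1)) ≤ k * x * (x : ℝ) ^ (A * (k + 1)) := by
      apply mul_le_mul_of_nonneg_right _ (by positivity)
      exact le_mul_of_one_le_right hk0 hx1
    have e4 : (x : ℝ) ^ (A * k) * x ≤ (x : ℝ) ^ (A * (k + 1)) * x := mul_le_mul_of_nonneg_right e1 (by linarith)
    rw [e2]
    nlinarith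
  have h4 : (1 + (k : ℝ)) * x * (x : ℝ) ^ (A * (k + 1)) < (x : ℝ) ^ (A * (k + 1) + 3) := by
    have e0 : (0 : ℝ) < (x : ℝ) ^ (A * (k + 1)) := by positivity
    have e1 : (1 + (k : ℝ)) < x := by linarith
    have e2 : (1 + (k : ℝ)) * x < x ^ 2 := by
      rw [sq]
      exact mul_lt_mul_of_pos_right e1 (by linarith)
    have e3 : (x : ℝ) ^ 2 ≤ x ^ 3 := pow_le_pow_right₀ hx1 (by norm_num)
    rw [pow_add, mul_comm ((x : ℝ) ^ (A * (k + 1)))]
    exact mul_lt_mul_of_pos_right (by linarith) e0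
  have h5 : (((term a b i p).natAbs : ℕ) : ℝ) < (x : ℝ) ^ (A * (k + 1) + 3) := by
    rw [Nat.cast_natAbs, Int.cast_abs]
    linarith
  exact_mod_cast h5

lemma W_pos (a b : ℤ) (k : ℕ) (hk : 1 ≤ k) (h : Adm k a b) (z : ℕ) : 0 < W a b k z := by
  unfold W
  apply prod_pos
  intro q hq
  have hq' := (mem_filter.1 hq).2
  have h3 : (2 : ℝ) ≤ q := by exact_mod_cast hq'.two_le
  have h1 := us_adm (sys_us a b k hk h (max (|(a : ℝ)|) (max (|(b : ℝ)|) 1)) 1
    ((le_max_right _ _).trans (le_max_right _ _)) (le_max_left _ _)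
    ((le_max_left _ _).trans (le_max_right _ _))) q hq'
  have h4 : min k (period a b q) < q := by
    have h5 : period a b q = Pool.Agent.U255.CC.period a b q := rfl
    rw [h5, ← roots_eq a b k q hq' hk h.2.1, ← nuB_sys]
    convert h1
  have h5 : ((min k (period a b q) : ℕ) : ℝ) < q := by exact_mod_cast h4
  apply div_pos
  · rw [sub_pos, div_lt_one (by linarith)]
    exact h5
  · rw [sub_pos, div_lt_one (by linarith)]
    linarith

open Classical in
/-- **Chains with a prime first term: the asymptotic formula and the Poisson law, uniformly in the linear maps.** -/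
theorem result :
    -- `a = 2`, `b = -1`: the chains of the second kind
    (∀ (i : ℕ) (n : ℤ), term 2 (-1) i n = 2 ^ i * (n - 1) + 1) ∧ (∀ k : ℕ, Admissible k 2 (-1)) ∧
    ∀ (k A : ℕ) (δ x₀ ε : ℝ), 1 ≤ k → 0 < δ → δ ≤ 1 → 0 < ε → ε < 1 →
      ∃ r₀ : ℕ, 2 ≤ r₀ ∧ ∀ r : ℕ, r₀ ≤ r → ∀ᶠ x : ℕ in atTop, ∀ z : ℕ, z = ⌊(x : ℝ) ^ (1 / (r : ℝ))⌋₊ →
        ∀ a b : ℤ, Admissible k a b → |a| ≤ (x : ℤ) ^ A → |b| ≤ (x : ℤ) ^ A →
        ∀ u L : ℕ, δ * x ≤ L → u + L ≤ x →
          (|((P a b k z u L).card : ℝ) * Real.log x - L * W a b k z| ≤ ε * (L * W a b k z) ∧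
            0 < (P a b k z u L).card ∧
            ∀ p ∈ P a b k z u L, ∀ i < k, term a b i p ≠ 0 ∧
              (term a b i p).natAbs.primeFactorsList.length ≤ r * (A * (k + 1) + 3)) ∧
          ∀ t : ℕ, t * V a b k z ≤ x₀ → ∀ B : Finset ℕ,
            |(((P a b k z u L).filter (fun p => next a b k z t p ∈ B)).card : ℝ) -
              (P a b k z u L).card *
                ∑ j ∈ B, Real.exp (-(t * V a b k z)) * (t * V a b k z) ^ j / j.factorial| ≤
              ε * (P a b k z u L).card := by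
  refine ⟨term_second, adm_second, ?_⟩
  intro k A δ x₀ ε hk hδ hδ1 hε hε1
  obtain ⟨r0, hr0, h⟩ := Pool.Agent.R463.PS.after 1 k 1 squarefree_one ((A * (k + 1) + 1 : ℕ) : ℝ) 1 1 δ
    (by positivity) one_pos one_pos hδ hδ1 x₀ ε hε hε1.le
  refine ⟨r0, hr0, fun r hr => ?_⟩
  obtain ⟨C, hC, hV⟩ := V_bound r (hr0.trans hr)
  have hz2 : Tendsto (fun x : ℕ => ⌊(x : ℝ) ^ (1 / (r : ℝ))⌋₊) atTop atTop := by
    apply tendsto_nat_floor_atTop.comp
    apply (tendsto_rpow_atTop _).comp tendsto_natCast_atTop_atTop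
    have : (2 : ℝ) ≤ r := by exact_mod_cast hr0.trans hr
    positivity
  filter_upwards [h r hr C, hV, eventually_ge_atTop (4 * k + 4), hz2.eventually_ge_atTop 2] with
    x hx hVx hxk hz2x z hz a b hadm ha hb u L hL huL
  have hxkR : (4 * (k : ℝ) + 4) ≤ x := by exact_mod_cast hxk
  have hk1 : (1 : ℝ) ≤ k := by exact_mod_cast hk
  have hx1 : (1 : ℝ) ≤ x := by linarith
  have hxk' : (k : ℝ) ≤ x := by linarith
  have hM : (1 : ℝ) ≤ (x : ℝ) ^ A := one_le_pow₀ hx1
  have ha' : |(a : ℝ)| ≤ (x : ℝ) ^ A := by exact_mod_cast ha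
  have hb' : |(b : ℝ)| ≤ (x : ℝ) ^ A := by exact_mod_cast hb
  have hVx' := hVx k hk a b
  have hsys := sys_ok a b k hk hadm ((x : ℝ) ^ A) ((x : ℝ) ^ ((A * (k + 1) + 1 : ℕ) : ℝ)) ((x : ℝ) ^ (1 : ℝ))
    hM ha' hb' (height k A _ hxk' hx1)
  rw [← Pool.Agent.R463.PS.V_eq] at hVx'
  obtain ⟨h1, h2⟩ := hx (sys a b k) 0 hsys (Nat.coprime_one_left 0) (fun p n hp hp1 => by
      exact absurd (Nat.dvd_one.1 hp1) hp.one_lt.ne') ⟨⟨0, hk⟩, fun n => by
      rw [sys_eval]
      simp [term_zero]⟩ hVx' (by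
      rw [Nat.cast_zero]
      positivity) x (by rw [Real.rpow_one]) u L hL huL
  rw [P_eq, W_eq a b k x r hk hadm.2.1, ← hz] at h1
  have hlog : 0 < Real.log x := Real.log_pos (by linarith)
  have hLpos : (0 : ℝ) < L := lt_of_lt_of_le (by positivity) hL
  have hW := W_pos a b k hk hadm z
  refine ⟨⟨h1, ?_, ?_⟩, ?_⟩
  · by_contra hcon
    have h3 : (P a b k z u L).card = 0 := by omega
    rw [h3, Nat.cast_zero, zero_mul, zero_sub, abs_neg, abs_of_pos (by positivity)] at h1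
    have h4 : 0 < L * W a b k z := by positivity
    nlinarith
  · intro p hp i hi
    unfold P at hp
    rw [mem_filter, mem_Ioc] at hp
    obtain ⟨⟨hp1, hp2⟩, hp3, hp4⟩ := hp
    have hne : term a b i p ≠ 0 := by
      intro h0
      have h5 := hp4 i hi 2 Nat.prime_two (by rw [hz]; exact hz2x)
      rw [h0] at h5
      exact h5 (dvd_zero _)
    refine ⟨hne, ?_⟩
    apply few x r (A * (k + 1) + 3) _ (by omega) (by have := hr0.trans hr; omega) (Int.natAbs_pos.2 hne)
      (term_size a b k A x p i hxk ha hb (by omega) hi)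
    intro q hq hqz hd
    rw [← hz] at hqz
    exact hp4 i hi q hq hqz (Int.natCast_dvd.2 hd)
  · intro t ht B
    have h3 := h2 t (by rw [V_eq a b k x r hk hadm.2.1, ← hz]; exact ht) B
    simp only [P_eq, V_eq a b k x r hk hadm.2.1, next_eq, ← hz] at h3
    exact h3

end Pool.Agent.Results.MP_9f2731_nt.PrimeStarts
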