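import Mathlib
import Pool.Agent.U98.TZ.B4

/-!
# Residues and distances of consecutive almost prime twins

`n` is a rough twin at the level `w` if neither `n` nor `n + 2` has a prime factor `≤ w`. For every `l` and `ε > 0`
there is `K` such that for all large `w`, in ALL intervals of length `≥ w ^ K`, the residues modulo `q` (any multiple
of `6`; for `q = 12`: the residues modulo `4` of the question) of `l + 1` consecutive rough twins are asymptotically
independent and uniformly distributed, and independent of the `l` distances, which have the exponential law. So the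
proportions of the question are `1 / 2` also when only those twins are counted whose successor is at a prescribed
distance (in any window whose length is at least `τ` times the mean distance and which begins before `1 / τ` times
the mean distance, uniformly in the window).

The starting file `RoughPairPatterns` has the residues modulo `4` without the distances. The engine is the joint law
for typed systems of linear forms of the file `Pool/Agent/U98/TZ/B4.lean` (helper98).
-/

set_option autoImplicit false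

namespace Pool.Agent.U163.Moved.ResiduesAndDistances_74f661

open Finset

/-- neither `n` nor `n + 2` has a prime factor `p ≤ w` -/
def Twin (w n : ℕ) : Prop := ∀ p : ℕ, p.Prime → p ≤ w → ¬ p ∣ n ∧ ¬ p ∣ n + 2

/-- the next rough twin -/
noncomputable def next (w n : ℕ) : ℕ := sInf {m | n < m ∧ Twin w m}

/-- the possible residues modulo `q` of twins -/
def residues (q : ℕ) : Finset ℕ := (range q).filter (fun b => Nat.Coprime b q ∧ Nat.Coprime (b + 2) q)

/-- the density of the rough twins, written with a multiple `q` of `6` -/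
noncomputable def density (w q : ℕ) : ℝ :=
  (residues q).card / (q : ℝ) * ∏ p ∈ (Icc 1 w).filter (fun p => p.Prime ∧ ¬ p ∣ q), (1 - (2 : ℝ) / p)

/-- The number of the rough twins `n ∈ (Z, Z + Y]` such that `n` and the next `l` rough twins are congruent to
`b 0, …, b l` modulo `q` and the `l` distances are in `(s j, T j]`. -/
noncomputable def count (w q l : ℕ) (b s T : ℕ → ℕ) (Z Y : ℕ) : ℕ :=
  Set.ncard {n : ℕ | Z < n ∧ n ≤ Z + Y ∧ Twin w n ∧ (∀ j ≤ l, (next w)^[j] n % q = b j) ∧
    ∀ j < l, s j < (next w)^[j + 1] n - (next w)^[j] n ∧ (next w)^[j + 1] n - (next w)^[j] n ≤ T j}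

/-- The number of the rough twins `n ∈ (Z, Z + Y]` in the class of `a` modulo `4` such that the next rough twin is in
the class of `b` modulo `4` and the distance is in `(s, T]`. -/
noncomputable def pairCount (w a b s T Z Y : ℕ) : ℕ :=
  Set.ncard {n : ℕ | Z < n ∧ n ≤ Z + Y ∧ Twin w n ∧ n % 4 = a ∧ next w n % 4 = b ∧
    s < next w n - n ∧ next w n - n ≤ T}

open Pool.Agent.U98.TY Pool.Agent.U98.TZ Pool.Agent.H373R2.T7

/-- the system -/
def F (_ : ℕ) : Finset (ℕ × ℤ) := {(1, 0), (1, 2)}

lemma QL_iff (q i p m : ℕ) : QL q F i p m ↔ ¬ p ∣ q ∧ (p ∣ m ∨ p ∣ m + 2) := by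
  unfold QL F
  apply and_congr_right
  intro _
  constructor
  · rintro ⟨L, hL, hd⟩
    rw [mem_insert, mem_singleton] at hL
    rcases hL with rfl | rfl
    · left
      have : (p : ℤ) ∣ (m : ℤ) := by simpa using hd
      exact Int.natCast_dvd_natCast.1 this
    · right
      have : (p : ℤ) ∣ ((m + 2 : ℕ) : ℤ) := by push_cast; simpa using hd
      exact Int.natCast_dvd_natCast.1 this
  · rintro (h | h)
    · refine ⟨(1, 0), by simp, ?_⟩
      have : (p : ℤ) ∣ (m : ℤ) := Int.natCast_dvd_natCast.2 h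
      simpa using this
    · refine ⟨(1, 2), by simp, ?_⟩
      have : (p : ℤ) ∣ ((m + 2 : ℕ) : ℤ) := Int.natCast_dvd_natCast.2 h
      push_cast at this
      simpa using this

lemma six_le {q p : ℕ} (h6 : 6 ∣ q) (hp : p.Prime) (hpq : ¬ p ∣ q) : 5 ≤ p := by
  by_contra hcon
  push Not at hcon
  have h2 := hp.two_le
  interval_cases p
  · exact hpq ((by norm_num : (2 : ℕ) ∣ 6).trans h6)
  · exact hpq ((by norm_num : (3 : ℕ) ∣ 6).trans h6)
  · norm_num at hp

lemma nuB_two {q p : ℕ} (i : ℕ) (h6 : 6 ∣ q) (hp : p.Prime) (hpq : ¬ p ∣ q) : nuB (QL q F i) p = 2 := by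
  classical
  have h5 := six_le h6 hp hpq
  unfold nuB
  have h : (range p).filter (fun r => QL q F i p r) = {0, p - 2} := by
    ext r
    rw [mem_filter, mem_range, mem_insert, mem_singleton, QL_iff]
    constructor
    · rintro ⟨hr, -, h1 | h1⟩
      · left
        exact Nat.eq_zero_of_dvd_of_lt h1 hr
      · right
        obtain ⟨k, hk⟩ := h1
        have hk1 : k = 1 := by
          rcases Nat.lt_or_ge k 1 with h2 | h2
          · have : k = 0 := by omega
            subst this
            omega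
          · rcases Nat.lt_or_ge k 2 with h3 | h3
            · omega
            · exfalso
              have : p * 2 ≤ p * k := Nat.mul_le_mul_left _ h3
              omega
        subst hk1
        omega
    · rintro (rfl | rfl)
      · exact ⟨by omega, hpq, Or.inl (dvd_zero _)⟩
      · refine ⟨by omega, hpq, Or.inr ?_⟩
        have : p - 2 + 2 = p := by omega
        rw [this]
  rw [h, card_pair]
  omega

lemma linF {q : ℕ} (h6 : 6 ∣ q) : LinF 2 q F where
  hA := by norm_num
  bd := by
    intro i L hL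
    unfold F at hL
    rw [mem_insert, mem_singleton] at hL
    rcases hL with rfl | rfl <;> norm_num
  ne := fun i => ⟨(1, 0), by simp [F]⟩
  same := fun i p hp hpq => by rw [nuB_two i h6 hp hpq, nuB_two 0 h6 hp hpq]
  adm := fun p hp hpq => by
    rw [nuB_two 0 h6 hp hpq]
    have := six_le h6 hp hpq
    omega
  tr := by
    intro i j t ht
    left
    refine ⟨(1, 0), by simp [F], ?_⟩
    intro L' hL'
    unfold F at hL'
    rw [mem_insert, mem_singleton] at hL'
    rcases hL' with rfl | rfl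
    · simp
      omega
    · simp
      omega

lemma twin_iff (w q n : ℕ) : Twin w n ↔ RL q F w n := by
  unfold Twin RL F
  constructor
  · intro h L hL p hp hpw hd
    rw [mem_insert, mem_singleton] at hL
    rcases hL with rfl | rfl
    · have : (p : ℤ) ∣ (n : ℤ) := by simpa using hd
      exact (h p hp hpw).1 (Int.natCast_dvd_natCast.1 this)
    · have : (p : ℤ) ∣ ((n + 2 : ℕ) : ℤ) := by push_cast; simpa using hd
      exact (h p hp hpw).2 (Int.natCast_dvd_natCast.1 this)
  · intro h p hp hpw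
    refine ⟨fun hd => h (1, 0) (by simp) p hp hpw ?_, fun hd => h (1, 2) (by simp) p hp hpw ?_⟩
    · have : (p : ℤ) ∣ (n : ℤ) := Int.natCast_dvd_natCast.2 hd
      simpa using this
    · have : (p : ℤ) ∣ ((n + 2 : ℕ) : ℤ) := Int.natCast_dvd_natCast.2 hd
      push_cast at this
      simpa using this

lemma cop_iff (q m : ℕ) : Nat.Coprime m q ↔ ∀ p : ℕ, p.Prime → p ∣ q → ¬ p ∣ m := by
  constructor
  · intro h p hp hpq hd
    have h1 := Nat.dvd_gcd hd hpq
    rw [Nat.Coprime] at h
    rw [h] at h1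
    exact hp.one_lt.ne' (Nat.dvd_one.1 h1)
  · intro h
    rw [Nat.coprime_iff_gcd_eq_one]
    by_contra hcon
    obtain ⟨p, hp, hpd⟩ := Nat.exists_prime_and_dvd hcon
    exact h p hp (hpd.trans (Nat.gcd_dvd_right _ _)) (hpd.trans (Nat.gcd_dvd_left _ _))

lemma residues_eq (q : ℕ) : residues q = rsL q F := by
  classical
  ext b
  unfold residues rsL F
  rw [mem_filter, mem_filter]
  apply and_congr_right
  intro _
  rw [cop_iff, cop_iff]
  constructor
  · rintro ⟨h1, h2⟩ p hp hpq L hL hd
    rw [mem_insert, mem_singleton] at hL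
    rcases hL with rfl | rfl
    · have : (p : ℤ) ∣ (b : ℤ) := by simpa using hd
      exact h1 p hp hpq (Int.natCast_dvd_natCast.1 this)
    · have : (p : ℤ) ∣ ((b + 2 : ℕ) : ℤ) := by push_cast; simpa using hd
      exact h2 p hp hpq (Int.natCast_dvd_natCast.1 this)
  · intro h
    refine ⟨fun p hp hpq hd => h p hp hpq (1, 0) (by simp) ?_, fun p hp hpq hd => h p hp hpq (1, 2) (by simp) ?_⟩
    · have : (p : ℤ) ∣ (b : ℤ) := Int.natCast_dvd_natCast.2 hd
      simpa using this
    · have : (p : ℤ) ∣ ((b + 2 : ℕ) : ℤ) := Int.natCast_dvd_natCast.2 hd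
      push_cast at this
      simpa using this

lemma density_pos {w q : ℕ} (h6 : 6 ∣ q) (hq : 1 ≤ q) (hne : (residues q).Nonempty) : 0 < density w q := by
  unfold density
  have h1 : (0 : ℝ) < (residues q).card := by exact_mod_cast hne.card_pos
  have h2 : (0 : ℝ) < q := by exact_mod_cast hq
  refine mul_pos (div_pos h1 h2) (prod_pos fun p hp => ?_)
  rw [mem_filter] at hp
  have h5 := six_le h6 hp.2.1 hp.2.2
  have h5' : (5 : ℝ) ≤ p := by exact_mod_cast h5
  have : (2 : ℝ) / p < 1 := by
    rw [div_lt_one (by linarith)]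
    linarith
  linarith

/-- **The joint law.** -/
lemma law (q : ℕ) (hq : 1 ≤ q) (h6 : 6 ∣ q) (l : ℕ) (ε : ℝ) (hε : 0 < ε) :
    ∃ K w₀ : ℕ, ∀ w : ℕ, w₀ ≤ w → ∀ Z Y : ℕ, w ^ K ≤ Y → ∀ b s T : ℕ → ℕ, (∀ j ≤ l, b j ∈ residues q) →
      (∀ j < l, s j ≤ T j) →
      |(count w q l b s T Z Y : ℝ) - density w q * Y / (residues q).card ^ (l + 1) *
        ∏ j ∈ range l, (Real.exp (-(density w q * s j)) - Real.exp (-(density w q * T j)))| ≤
        ε * (density w q * Y / (residues q).card ^ (l + 1)) := by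
  classical
  obtain ⟨K, y1, h⟩ := law_lin l hq (linF h6) ε hε
  refine ⟨K, y1, fun w hw Z Y hY b s T hb hsT => ?_⟩
  have hd : density w q = (residues q).card / (q : ℝ) *
      ∏ p ∈ (Icc 1 w).filter (fun p => p.Prime ∧ ¬ p ∣ q), (1 - (nuB (QL q F 0) p : ℝ) / p) := by
    unfold density
    congr 1
    refine prod_congr rfl fun p hp => ?_
    rw [mem_filter] at hp
    rw [nuB_two 0 h6 hp.2.1 hp.2.2]
    norm_num
  have h1 := h w hw Z Y hY b s T (fun j hj => by rw [← residues_eq]; exact hb j hj) hsT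
    ((residues q).card : ℝ) (density w q) (by rw [residues_eq]) hd
  have h2 : (cG (RL q F w) q l b s T Z Y) = count w q l b s T Z Y := by
    have hG : RL q F w = Twin w := by
      funext n
      exact propext (twin_iff w q n).symm
    rw [hG]
    rfl
  rw [h2] at h1
  exact h1

lemma next_spec (w m : ℕ) : m < next w m ∧ Twin w (next w m) := by
  have hne : {n | m < n ∧ Twin w n}.Nonempty := by
    refine ⟨(m + 2) * w.factorial - 1, ?_, ?_⟩
    · have h1 : 1 ≤ w.factorial := Nat.factorial_pos w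
      have h2 : (m + 2) * 1 ≤ (m + 2) * w.factorial := Nat.mul_le_mul_left _ h1
      omega
    · intro p hp hpw
      have h1 : 1 ≤ w.factorial := Nat.factorial_pos w
      have h2 : (m + 2) * 1 ≤ (m + 2) * w.factorial := Nat.mul_le_mul_left _ h1
      have h3 : p ∣ (m + 2) * w.factorial :=
        dvd_mul_of_dvd_right (Nat.dvd_factorial hp.pos hpw) _
      constructor
      · intro hd
        have h4 := Nat.dvd_sub h3 hd
        have h5 : (m + 2) * w.factorial - ((m + 2) * w.factorial - 1) = 1 := by omega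
        rw [h5] at h4
        exact hp.one_lt.ne' (Nat.dvd_one.1 h4)
      · intro hd
        have h5 : (m + 2) * w.factorial - 1 + 2 = (m + 2) * w.factorial + 1 := by omega
        rw [h5] at hd
        exact hp.one_lt.ne' (Nat.dvd_one.1 ((Nat.dvd_add_right h3).1 hd))
  exact Nat.sInf_mem hne

lemma iterate_twin (w n : ℕ) (hn : Twin w n) (j : ℕ) : Twin w ((next w)^[j] n) := by
  rcases j with _ | j
  · exact hn
  · rw [Function.iterate_succ_apply']
    exact (next_spec w _).2

lemma twin_mod {w n : ℕ} (hw : 3 ≤ w) (hn : Twin w n) : n % 6 = 5 := by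
  obtain ⟨h1, _⟩ := hn 2 Nat.prime_two (by omega)
  obtain ⟨h2, h3⟩ := hn 3 Nat.prime_three hw
  rw [Nat.dvd_iff_mod_eq_zero] at h1 h2 h3
  have h4 : n % 2 = 1 := by omega
  have h5 : n % 3 = 2 := by omega
  omega

lemma res12 : residues 12 = {5, 11} := by decide

lemma count_four {w : ℕ} (hw : 3 ≤ w) (l : ℕ) (a s T : ℕ → ℕ) (ha : ∀ j ≤ l, a j = 1 ∨ a j = 3) (Z Y : ℕ) :
    count w 4 l a s T Z Y = count w 12 l (fun j => if a j = 1 then 5 else 11) s T Z Y := by
  unfold count
  congr 1
  ext n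
  simp only [Set.mem_ofPred_eq]
  refine and_congr_right fun _ => and_congr_right fun _ => and_congr_right fun hn => and_congr_left fun _ => ?_
  refine forall_congr' fun j => ?_
  refine imp_congr_right fun hj => ?_
  have h6 := twin_mod hw (iterate_twin w n hn j)
  rcases ha j hj with h | h
  · rw [h, if_pos rfl]
    omega
  · rw [h, if_neg (by norm_num)]
    omega

lemma law_four (l : ℕ) (ε : ℝ) (hε : 0 < ε) :
    ∃ K w₀ : ℕ, ∀ w : ℕ, w₀ ≤ w → ∀ Z Y : ℕ, w ^ K ≤ Y → ∀ a s T : ℕ → ℕ, (∀ j ≤ l, a j = 1 ∨ a j = 3) →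
      (∀ j < l, s j ≤ T j) →
      |(count w 4 l a s T Z Y : ℝ) - density w 12 * Y / 2 ^ (l + 1) *
        ∏ j ∈ range l, (Real.exp (-(density w 12 * s j)) - Real.exp (-(density w 12 * T j)))| ≤
        ε * (density w 12 * Y / 2 ^ (l + 1)) := by
  obtain ⟨K, w₀, h⟩ := law 12 (by norm_num) (by norm_num) l ε hε
  refine ⟨K, max w₀ 3, fun w hw Z Y hY a s T ha hsT => ?_⟩
  have h1 := h w ((le_max_left _ _).trans hw) Z Y hY (fun j => if a j = 1 then 5 else 11) s T (fun j hj => by
    rw [res12]
    split_ifs <;> simp) hsT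
  rw [← count_four ((le_max_right _ _).trans hw) l a s T ha Z Y] at h1
  have hc : (residues 12).card = 2 := by rw [res12]; rfl
  rw [hc] at h1
  exact_mod_cast h1

lemma pair_eq (w a b s T Z Y : ℕ) :
    pairCount w a b s T Z Y = count w 4 1 (fun j => if j = 0 then a else b) (fun _ => s) (fun _ => T) Z Y := by
  unfold pairCount count
  congr 1
  ext n
  simp only [Set.mem_ofPred_eq]
  refine and_congr_right fun _ => and_congr_right fun _ => and_congr_right fun _ => ?_
  constructor
  · rintro ⟨h1, h2, h3, h4⟩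
    refine ⟨fun j hj => ?_, fun j hj => ?_⟩
    · rcases Nat.lt_or_ge j 1 with h | h
      · have : j = 0 := by omega
        subst this
        simpa using h1
      · have : j = 1 := by omega
        subst this
        simpa using h2
    · have : j = 0 := by omega
      subst this
      exact ⟨h3, h4⟩
  · rintro ⟨h1, h2⟩
    have h3 := h1 0 (by omega)
    have h4 := h1 1 le_rfl
    have h5 := h2 0 (by omega)
    exact ⟨by simpa using h3, by simpa using h4, h5.1, h5.2⟩

lemma ratio {M e x y : ℝ} (hM : 0 < M) (he : e ≤ 1 / 2) (he0 : 0 ≤ e) (hx : |x - M| ≤ e * M)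
    (hy : |y - M| ≤ e * M) : |x / (x + y) - 1 / 2| ≤ e := by
  rw [abs_le] at hx hy
  have heM : e * M ≤ 1 / 2 * M := by gcongr
  have hpos : 0 < x + y := by linarith [hx.1, hy.1]
  have h1 : x / (x + y) - 1 / 2 = (x - y) / (2 * (x + y)) := by
    field_simp
    ring
  rw [h1, abs_div, abs_of_pos (by linarith : (0 : ℝ) < 2 * (x + y)), div_le_iff₀ (by linarith)]
  have h2 : |x - y| ≤ 2 * (e * M) := by
    rw [abs_le]
    constructor <;> linarith [hx.1, hx.2, hy.1, hy.2]
  have h3 : M ≤ x + y := by linarith [hx.1, hy.1]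
  have h4 : e * M ≤ e * (x + y) := by gcongr
  linarith

lemma proportions (τ ε : ℝ) (hτ : 0 < τ) (hε : 0 < ε) :
    ∃ K w₀ : ℕ, ∀ w : ℕ, w₀ ≤ w → ∀ Z Y : ℕ, w ^ K ≤ Y → ∀ s T : ℕ, τ ≤ density w 12 * ((T : ℝ) - s) →
      density w 12 * s ≤ 1 / τ → ∀ a b : ℕ, (a = 1 ∨ a = 3) → (b = 1 ∨ b = 3) →
      0 < pairCount w a b s T Z Y ∧
      |(pairCount w a b s T Z Y : ℝ) / ((pairCount w a 1 s T Z Y : ℝ) + pairCount w a 3 s T Z Y) - 1 / 2| ≤ ε := by
  obtain ⟨κ, hκ⟩ : ∃ κ : ℝ, κ = Real.exp (-(1 / τ)) * (1 - Real.exp (-τ)) := ⟨_, rfl⟩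
  have hκ0 : 0 < κ := by
    rw [hκ]
    have h1 : Real.exp (-τ) < 1 := Real.exp_lt_one_iff.2 (by linarith)
    exact mul_pos (Real.exp_pos _) (by linarith)
  obtain ⟨e, he⟩ : ∃ e : ℝ, e = min (1 / 2) ε := ⟨_, rfl⟩
  have he0 : 0 < e := by rw [he]; positivity
  have he1 : e ≤ 1 / 2 := by rw [he]; exact min_le_left _ _
  have he2 : e ≤ ε := by rw [he]; exact min_le_right _ _
  obtain ⟨K, w₀, h⟩ := law_four 1 (e * κ) (by positivity)
  refine ⟨K, max w₀ 1, fun w hw Z Y hY s T hsT hs a b ha hb => ?_⟩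
  have hw1 : 1 ≤ w := (le_max_right _ _).trans hw
  have hY1 : 1 ≤ Y := (Nat.one_le_pow _ _ hw1).trans hY
  have hD : 0 < density w 12 := density_pos (by norm_num) (by norm_num) (by rw [res12]; simp)
  have hsT' : s ≤ T := by
    have h1 : 0 < density w 12 * ((T : ℝ) - s) := hτ.trans_le hsT
    have h2 : 0 < (T : ℝ) - s := (pos_iff_pos_of_mul_pos h1).1 hD
    have h3 : (s : ℝ) < T := by linarith
    exact_mod_cast h3.le
  have hE : κ ≤ Real.exp (-(density w 12 * s)) - Real.exp (-(density w 12 * T)) := by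
    have h1 : Real.exp (-(density w 12 * T)) =
        Real.exp (-(density w 12 * s)) * Real.exp (-(density w 12 * ((T : ℝ) - s))) := by
      rw [← Real.exp_add]
      ring_nf
    have h2 : Real.exp (-(density w 12 * ((T : ℝ) - s))) ≤ Real.exp (-τ) := Real.exp_le_exp.2 (by linarith)
    have h3 : Real.exp (-(1 / τ)) ≤ Real.exp (-(density w 12 * s)) := Real.exp_le_exp.2 (by linarith)
    have h4 : Real.exp (-τ) < 1 := Real.exp_lt_one_iff.2 (by linarith)
    rw [h1, hκ]
    calc Real.exp (-(1 / τ)) * (1 - Real.exp (-τ)) ≤ Real.exp (-(density w 12 * s)) * (1 - Real.exp (-τ)) := by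
          gcongr
      _ ≤ Real.exp (-(density w 12 * s)) * (1 - Real.exp (-(density w 12 * ((T : ℝ) - s)))) := by
          gcongr
      _ = _ := by ring
  obtain ⟨M, hM⟩ : ∃ M : ℝ, M = density w 12 * Y / 2 ^ (1 + 1) *
      (Real.exp (-(density w 12 * s)) - Real.exp (-(density w 12 * T))) := ⟨_, rfl⟩
  have hM0 : 0 < M := by
    rw [hM]
    have hY' : (0 : ℝ) < Y := by exact_mod_cast hY1
    have : 0 < Real.exp (-(density w 12 * s)) - Real.exp (-(density w 12 * T)) := hκ0.trans_le hE
    positivity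
  have key : ∀ b : ℕ, (b = 1 ∨ b = 3) → |(pairCount w a b s T Z Y : ℝ) - M| ≤ e * M := by
    intro b hb
    have h1 := h w ((le_max_left _ _).trans hw) Z Y hY (fun j => if j = 0 then a else b) (fun _ => s) (fun _ => T)
      (fun j _ => by
        split_ifs
        · exact ha
        · exact hb) (fun _ _ => hsT')
    rw [← pair_eq, prod_range_one, ← hM] at h1
    refine h1.trans ?_
    rw [hM]
    have hY' : (0 : ℝ) < Y := by exact_mod_cast hY1
    calc e * κ * (density w 12 * Y / 2 ^ (1 + 1)) = e * (density w 12 * Y / 2 ^ (1 + 1) * κ) := by ring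
      _ ≤ e * (density w 12 * Y / 2 ^ (1 + 1) *
          (Real.exp (-(density w 12 * s)) - Real.exp (-(density w 12 * T)))) := by gcongr
  constructor
  · have h1 := key b hb
    rw [abs_le] at h1
    have h2 : e * M ≤ 1 / 2 * M := by gcongr
    have h3 : (0 : ℝ) < pairCount w a b s T Z Y := by linarith [h1.1]
    exact_mod_cast h3
  · refine le_trans ?_ he2
    rcases hb with rfl | rfl
    · exact ratio hM0 he1 he0.le (key 1 (Or.inl rfl)) (key 3 (Or.inr rfl))
    · have := ratio hM0 he1 he0.le (key 3 (Or.inr rfl)) (key 1 (Or.inl rfl))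
      rwa [add_comm] at this

lemma filter12 (w : ℕ) : (Icc 1 w).filter (fun p => p.Prime ∧ ¬ p ∣ 12) = (Icc 5 w).filter Nat.Prime := by
  ext p
  rw [mem_filter, mem_filter, mem_Icc, mem_Icc]
  constructor
  · rintro ⟨⟨h1, h2⟩, hp, h3⟩
    refine ⟨⟨?_, h2⟩, hp⟩
    by_contra hcon
    rw [not_le] at hcon
    interval_cases p
    · norm_num at hp
    · exact h3 (by norm_num)
    · exact h3 (by norm_num)
    · norm_num at hp
  · rintro ⟨⟨h1, h2⟩, hp⟩
    refine ⟨⟨by omega, h2⟩, hp, ?_⟩
    intro hd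
    have h3 : p ∣ 2 * 2 * 3 := by norm_num; exact hd
    rcases hp.dvd_mul.1 h3 with h4 | h4
    · rcases hp.dvd_mul.1 h4 with h5 | h5 <;>
      · have := Nat.le_of_dvd (by norm_num) h5
        omega
    · have := Nat.le_of_dvd (by norm_num) h4
      omega

lemma density_twelve (w : ℕ) :
    density w 12 = 1 / 6 * ∏ p ∈ (Icc 5 w).filter Nat.Prime, (1 - (2 : ℝ) / p) := by
  unfold density
  rw [filter12, res12]
  norm_num

/-- **Residues and distances of consecutive almost prime twins.** (0) The twin primes `p > w` are rough twins, and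
the density is `D = (1 / 6) ∏ (1 - 2 / p)`, `5 ≤ p ≤ w`. (1) For all `l`, `ε > 0` there are `K`, `w₀` such that for
`w ≥ w₀`, ALL intervals `(Z, Z + Y]` with `Y ≥ w ^ K`, all classes `a 0, …, a l` among `1, 3` modulo `4` and all
`s j ≤ T j` the number of the rough twins of the interval such that they and the next `l` ones are in these classes
and the distances are in `(s j, T j]` is `D Y 2 ^ (-l-1) ∏ (exp (-D s j) - exp (-D T j))` up to `ε D Y 2 ^ (-l-1)`.
(2) The same for the residues modulo any multiple `q` of `6`. (3) For `τ, ε > 0`, such `w`, all these intervals and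
all `s`, `T` with `D (T - s) ≥ τ`, `D s ≤ 1 / τ`: among the rough twins in the class of `a` modulo `4` whose successor
is at a distance in `(s, T]` the proportion of those whose successor is in the class of `b` is `1 / 2` up to `ε`. -/
theorem result :
    ((∀ w p : ℕ, p.Prime → (p + 2).Prime → w < p → Twin w p) ∧
      ∀ w : ℕ, density w 12 = 1 / 6 * ∏ p ∈ (Icc 5 w).filter Nat.Prime, (1 - (2 : ℝ) / p)) ∧
    (∀ (l : ℕ) (ε : ℝ), 0 < ε → ∃ K w₀ : ℕ, ∀ w : ℕ, w₀ ≤ w → ∀ Z Y : ℕ, w ^ K ≤ Y → ∀ a s T : ℕ → ℕ,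
      (∀ j ≤ l, a j = 1 ∨ a j = 3) → (∀ j < l, s j ≤ T j) →
      |(count w 4 l a s T Z Y : ℝ) - density w 12 * Y / 2 ^ (l + 1) *
        ∏ j ∈ range l, (Real.exp (-(density w 12 * s j)) - Real.exp (-(density w 12 * T j)))| ≤
        ε * (density w 12 * Y / 2 ^ (l + 1))) ∧
    (∀ q : ℕ, 1 ≤ q → 6 ∣ q → ∀ (l : ℕ) (ε : ℝ), 0 < ε → ∃ K w₀ : ℕ, ∀ w : ℕ, w₀ ≤ w → ∀ Z Y : ℕ, w ^ K ≤ Y →
      ∀ b s T : ℕ → ℕ, (∀ j ≤ l, b j ∈ residues q) → (∀ j < l, s j ≤ T j) →
      |(count w q l b s T Z Y : ℝ) - density w q * Y / (residues q).card ^ (l + 1) *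
        ∏ j ∈ range l, (Real.exp (-(density w q * s j)) - Real.exp (-(density w q * T j)))| ≤
        ε * (density w q * Y / (residues q).card ^ (l + 1))) ∧
    (∀ τ ε : ℝ, 0 < τ → 0 < ε → ∃ K w₀ : ℕ, ∀ w : ℕ, w₀ ≤ w → ∀ Z Y : ℕ, w ^ K ≤ Y → ∀ s T : ℕ,
      τ ≤ density w 12 * ((T : ℝ) - s) → density w 12 * s ≤ 1 / τ →
      ∀ a b : ℕ, (a = 1 ∨ a = 3) → (b = 1 ∨ b = 3) → 0 < pairCount w a b s T Z Y ∧
      |(pairCount w a b s T Z Y : ℝ) / ((pairCount w a 1 s T Z Y : ℝ) + pairCount w a 3 s T Z Y) - 1 / 2| ≤ ε) := by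
  refine ⟨⟨fun w p hp hp2 hwp r hr hrw => ⟨fun hd => ?_, fun hd => ?_⟩, density_twelve⟩,
    fun l ε hε => law_four l ε hε, fun q hq h6 l ε hε => law q hq h6 l ε hε,
    fun τ ε hτ hε => proportions τ ε hτ hε⟩
  · have := (Nat.prime_dvd_prime_iff_eq hr hp).1 hd
    omega
  · have := (Nat.prime_dvd_prime_iff_eq hr hp2).1 hd
    omega

end Pool.Agent.U163.Moved.ResiduesAndDistances_74f661
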