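import Mathlib
import Pool.Agent.U464.PD.Pat

/-!
# Every admissible pattern is realised by consecutive rough numbers with restricted digits, in short intervals

Q1 asks whether every admissible set `H` is realised as consecutive primes by infinitely many `n`. Here the primes are
replaced by the rough numbers, those without prime factors up to `x ^ (1 / r)`, `x = b ^ K`: EVERY admissible pattern
`H` is realised, exactly, by the rough numbers (the rough numbers in `[n, n + max H]` are exactly the numbers `n + h`,
`h ∈ H`), and these have at most `r` prime factors each, for the right order of magnitude of integers `n` with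
prescribed leading digits in base `b` (`n` lies in `[b ^ K t, b ^ K (t + 1))`, where `t` may be as large as any power
of `x`, so that the window may be as short as any power of `n`) and with restricted `K` last digits: the `i`-th digit
belongs to `A i`, where the sets `A i` are arbitrary, only the product of the `|A i|` is at least `exp (- c K) b ^ K`.
In particular between the `n + h` there is no other prime. On the other hand the number of such `n` for which all
`n + h` are primes has at most this order of magnitude.

Proof: the lower bound for the patterns of rough numbers which contain `H`, and the upper bound for those which contain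
a larger pattern, by the sieve for integers with restricted digits `Pool.Agent.Y816.PD.uni_shift0` of the starting
library (cf. `uni_gap` there, with primes instead of rough numbers).
-/

set_option autoImplicit false

namespace Pool.Agent.Results.MP_3ec731_nt.RoughPatternsRestrictedDigits

open Finset Filter

/-- The `n` in `[b ^ K t, b ^ K (t + 1))` whose `i`-th digit in base `b` (the digit of the units for `i = 0`) belongs
to `A i` for all `i < K`, such that the integers in `[n, n + max H]` all of whose prime factors are larger than
`b ^ (K / r)` are exactly the numbers `n + h`, `h ∈ H`, and each of these has at most `r` prime factors, counted with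
multiplicity. -/
def Realise (H : Finset ℕ) (b K t r : ℕ) (A : ℕ → Finset ℕ) : Set ℕ :=
  {n | b ^ K * t ≤ n ∧ n < b ^ K * (t + 1) ∧ (∀ i < K, n / b ^ i % b ∈ A i) ∧
    (∀ y : ℕ, y ≤ H.sup id → ((∀ q : ℕ, q.Prime → q ∣ n + y → b ^ K < q ^ r) ↔ y ∈ H)) ∧
    ∀ h ∈ H, (n + h).primeFactorsList.length ≤ r}

/-- The `n` in `[b ^ K t, b ^ K (t + 1))` whose `i`-th digit in base `b` belongs to `A i` for all `i < K`, such that
all `n + h`, `h ∈ H`, are primes. -/
def PrimeTuples (H : Finset ℕ) (b K t : ℕ) (A : ℕ → Finset ℕ) : Set ℕ :=
  {n | b ^ K * t ≤ n ∧ n < b ^ K * (t + 1) ∧ (∀ i < K, n / b ^ i % b ∈ A i) ∧ ∀ h ∈ H, (n + h).Prime}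

/-- **Every admissible pattern is realised by consecutive rough numbers with restricted digits.** -/
theorem result (H : Finset ℕ) (hne : H.Nonempty) (hadm : ∀ p : ℕ, p.Prime → ∃ m : ℕ, ∀ h ∈ H, ¬ p ∣ m + h)
    (D : ℕ) :
    ∃ c : ℝ, 0 < c ∧ ∃ r₀ : ℕ, 2 ≤ r₀ ∧ ∀ r : ℕ, r₀ ≤ r → ∀ b : ℕ, 2 ≤ b → ∃ κ C : ℝ, 0 < κ ∧ 0 < C ∧
      ∀ᶠ K : ℕ in atTop, ∀ t : ℕ, t ≤ b ^ (D * K) → ∀ A : ℕ → Finset ℕ, (∀ i < K, A i ⊆ range b) →
        (b : ℝ) ^ K ≤ Real.exp (c * K) * ∏ i ∈ range K, ((A i).card : ℝ) →
        ((∃ d ∈ A 0, ∀ h ∈ H, (d + h).Coprime b) →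
          κ * (∏ i ∈ range K, ((A i).card : ℝ)) / (K : ℝ) ^ H.card ≤ ((Realise H b K t r A).ncard : ℝ)) ∧
        ((PrimeTuples H b K t A).ncard : ℝ) ≤ C * (∏ i ∈ range K, ((A i).card : ℝ)) / (K : ℝ) ^ H.card :=
  Pool.Agent.U464.PD.pat H hadm hne D

end Pool.Agent.Results.MP_3ec731_nt.RoughPatternsRestrictedDigits
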